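import Pool.Agent.J6H9.PL.Stm
import Pool.Agent.J6H45.CoordRestr.Main

/-!
# Module PL-SPLIT: a product with a line
-/

set_option autoImplicit false

open Filter Topology
open Pool.Agent.J6H45.CoordRestr Pool.Agent.J6H9.PL

namespace Pool.Agent.J6H3.PL

variable {n : ℕ}

noncomputable section

/-- dropping the coordinate `0` -/
def tlL : E (n + 1) →ₗ[ℝ] E n where
  toFun x := WithLp.toLp 2 (fun i => x i.succ)
  map_add' _ _ := rfl
  map_smul' _ _ := rfl

/-- dropping the coordinate `0` -/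
def tl : E (n + 1) →L[ℝ] E n := LinearMap.toContinuousLinearMap tlL

/-- inserting the coordinate `0` -/
def incL : E n →ₗ[ℝ] E (n + 1) where
  toFun w := WithLp.toLp 2 (Fin.cons 0 w)
  map_add' x y := by
    ext i
    refine Fin.cases ?_ (fun j => ?_) i <;> simp
  map_smul' a x := by
    ext i
    refine Fin.cases ?_ (fun j => ?_) i <;> simp

/-- inserting the coordinate `0` -/
def inc : E n →L[ℝ] E (n + 1) := LinearMap.toContinuousLinearMap incL

/-- the first unit vector -/
def e0 : E (n + 1) := EuclideanSpace.single 0 1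

lemma tl_apply (x : E (n + 1)) (i : Fin n) : tl x i = x i.succ := rfl

lemma inc_zero (w : E n) : inc w 0 = 0 := rfl

lemma inc_succ (w : E n) (i : Fin n) : inc w i.succ = w i := rfl

lemma e0_zero : (e0 : E (n + 1)) 0 = 1 := by simp [e0]

lemma e0_succ (i : Fin n) : (e0 : E (n + 1)) i.succ = 0 := by simp [e0, Fin.succ_ne_zero]

lemma tl_inc (w : E n) : tl (inc w) = w := by
  ext i
  rw [tl_apply, inc_succ]

lemma tl_e0 : tl (e0 : E (n + 1)) = 0 := by
  ext i
  rw [tl_apply, e0_succ]
  rfl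

lemma split (x : E (n + 1)) : inc (tl x) + x 0 • e0 = x := by
  ext i
  refine Fin.cases ?_ (fun j => ?_) i
  · simp [inc_zero, e0_zero]
  · simp [inc_succ, e0_succ, tl_apply]

lemma tl_add (x : E (n + 1)) (s : ℝ) : tl (x + s • e0) = tl x := by
  rw [map_add, map_smul, tl_e0, smul_zero, add_zero]

lemma norm_inc (w : E n) : ‖inc w‖ = ‖w‖ := by
  rw [EuclideanSpace.norm_eq, EuclideanSpace.norm_eq, Fin.sum_univ_succ]
  simp [inc_zero, inc_succ]

lemma cont_zero : Continuous fun x : E (n + 1) => x 0 :=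
  (EuclideanSpace.proj (0 : Fin (n + 1)) : E (n + 1) →L[ℝ] ℝ).continuous

/-- product of a homeomorphism with a line -/
def up (g : E n ≃ₜ E n) : E (n + 1) ≃ₜ E (n + 1) where
  toFun x := inc (g (tl x)) + x 0 • e0
  invFun x := inc (g.symm (tl x)) + x 0 • e0
  left_inv x := by
    have h1 : (inc (g (tl x)) + x 0 • e0 : E (n + 1)) 0 = x 0 := by simp [inc_zero, e0_zero]
    simp only [h1, tl_add, tl_inc, g.symm_apply_apply, split]
  right_inv x := by
    have h1 : (inc (g.symm (tl x)) + x 0 • e0 : E (n + 1)) 0 = x 0 := by simp [inc_zero, e0_zero]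
    simp only [h1, tl_add, tl_inc, g.apply_symm_apply, split]
  continuous_toFun := by
    have := cont_zero (n := n)
    fun_prop
  continuous_invFun := by
    have := cont_zero (n := n)
    fun_prop

lemma up_apply (g : E n ≃ₜ E n) (x : E (n + 1)) : up g x = inc (g (tl x)) + x 0 • e0 := rfl

lemma up_smooth {g : E n → E n} (hg : ContDiff ℝ 1 g) :
    ContDiff ℝ 1 fun x : E (n + 1) => inc (g (tl x)) + x 0 • (e0 : E (n + 1)) := by
  have h0 : ContDiff ℝ 1 fun x : E (n + 1) => x 0 :=
    (EuclideanSpace.proj (0 : Fin (n + 1)) : E (n + 1) →L[ℝ] ℝ).contDiff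
  exact (inc.contDiff.comp (hg.comp tl.contDiff)).add (h0.smul contDiff_const)

lemma up_diffeo {g : E n ≃ₜ E n} (hg : g ∈ Diffeos n 1) : up g ∈ Diffeos (n + 1) 1 :=
  ⟨up_smooth hg.1, up_smooth hg.2⟩

lemma up_mem {c : E n ≃ₜ E n} (hc : c ∈ Cl n) : up c ∈ Cl (n + 1) := by
  intro B hB ε hε
  obtain ⟨g, hg, δ, hδ, h⟩ := hc (tl '' B) (tl.lipschitz.isBounded_image hB) ε hε
  refine ⟨up g, up_diffeo hg, δ, hδ, fun p hp => ?_⟩
  rw [up_apply, up_apply, dist_add_right, dist_eq_norm, ← map_sub, norm_inc, ← dist_eq_norm]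
  exact h _ ⟨p, hp, rfl⟩

/-- changing the coordinate `0` by a function of the others -/
def shear {b : E n → ℝ} (hb : Continuous b) : E (n + 1) ≃ₜ E (n + 1) where
  toFun x := x + b (tl x) • e0
  invFun x := x - b (tl x) • e0
  left_inv x := by simp only [tl_add, add_sub_cancel_right]
  right_inv x := by
    have h1 : tl (x - b (tl x) • e0) = tl x := by
      rw [sub_eq_add_neg, ← neg_smul, tl_add]
    simp only [h1, sub_add_cancel]
  continuous_toFun := by fun_prop
  continuous_invFun := by fun_prop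

lemma shear_mem {b : E n → ℝ} (hb : Continuous b) : shear hb ∈ Cl (n + 1) := by
  have h1 : shear hb ∈ TypeA (n + 1) := by
    refine ⟨0, fun x j hj => ?_⟩
    obtain ⟨k, rfl⟩ := Fin.exists_succ_eq.2 hj
    change (x + b (tl x) • e0 : E (n + 1)) k.succ = x k.succ
    simp [e0_succ]
  exact (GA_approx (mem_GA h1)).trans fun t ht => Approximable.of_mem (Diffeos_mono le_top ht)

lemma Cl_mul {m : ℕ} {a b : E m ≃ₜ E m} (ha : a ∈ Cl m) (hb : b ∈ Cl m) : a * b ∈ Cl m :=
  Approximable.mul (fun _ h1 _ h2 => Diffeos_mul h1 h2) ha hb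

lemma lin_mem {m : ℕ} (M : E m ≃L[ℝ] E m) : M.toHomeomorph ∈ Cl m :=
  Approximable.of_mem ⟨M.contDiff, M.symm.contDiff⟩

/-- **PL-SPLIT** -/
theorem main : S_Split := by
  intro n B hB hS p q hp hpq
  have hB0 : B 0 = 0 := by
    have := hB 0 0 le_rfl
    simpa using this
  have hq : q ≠ 0 := by
    rintro rfl
    have h1 := hpq 0 1
    rw [smul_zero, add_zero, zero_add, one_smul] at h1
    exact hp (B.injective h1)
  have he : (e0 : E (n + 1)) ≠ 0 := by
    intro h
    have := congrArg (fun x : E (n + 1) => x 0) h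
    simp [e0_zero] at this
  obtain ⟨M₁, hM₁⟩ := SeparatingDual.exists_continuousLinearEquiv_apply_eq (R := ℝ) he hp
  obtain ⟨M₂, hM₂⟩ := SeparatingDual.exists_continuousLinearEquiv_apply_eq (R := ℝ) hq he
  obtain ⟨D, hD⟩ : ∃ D : E (n + 1) ≃ₜ E (n + 1), D = M₂.toHomeomorph * B * M₁.toHomeomorph :=
    ⟨_, rfl⟩
  have hDa : ∀ x, D x = M₂ (B (M₁ x)) := fun x => by rw [hD]; rfl
  have hDs : ∀ x (s : ℝ), D (x + s • e0) = D x + s • e0 := by
    intro x s
    rw [hDa, hDa, map_add, map_smul, hM₁, hpq, map_add, map_smul, hM₂]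
  have hDs' : ∀ x (s : ℝ), D.symm (x + s • e0) = D.symm x + s • e0 := by
    intro x s
    apply D.injective
    rw [D.apply_symm_apply, hDs, D.apply_symm_apply]
  have hDh : Homog D := by
    intro a x ha
    rw [hDa, hDa, map_smul, hB _ _ ha, map_smul]
  have hinc : ∀ y : E (n + 1), inc (tl y) = y + (-(y 0)) • e0 := by
    intro y
    have := split y
    rw [neg_smul, ← sub_eq_add_neg, eq_sub_iff_add_eq]
    exact this
  let c : E n ≃ₜ E n :=
    { toFun := fun w => tl (D (inc w))
      invFun := fun w => tl (D.symm (inc w))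
      left_inv := fun w => by
        simp only
        rw [hinc, hDs', D.symm_apply_apply, tl_add, tl_inc]
      right_inv := fun w => by
        simp only
        rw [hinc, hDs, D.apply_symm_apply, tl_add, tl_inc]
      continuous_toFun := by fun_prop
      continuous_invFun := by fun_prop }
  have hc : ∀ w, c w = tl (D (inc w)) := fun _ => rfl
  refine ⟨c, ?_, ?_, fun hcl => ?_⟩
  · intro a x ha
    rw [hc, hc, map_smul, hDh _ _ ha, map_smul]
  · obtain ⟨S, hS, hSB⟩ := hS
    refine ⟨(fun L : E (n + 1) →L[ℝ] E (n + 1) =>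
      tl.comp ((M₂ : E (n + 1) →L[ℝ] E (n + 1)).comp
        (L.comp ((M₁ : E (n + 1) →L[ℝ] E (n + 1)).comp inc)))) '' S, hS.image _, fun x => ?_⟩
    obtain ⟨L, hL, hLx⟩ := hSB (M₁ (inc x))
    refine ⟨_, ⟨L, hL, rfl⟩, ?_⟩
    rw [hc, hDa, hLx]
    rfl
  · have hb : Continuous fun w : E n => (D (inc (c.symm w))) 0 :=
      cont_zero.comp (D.continuous.comp (inc.continuous.comp c.symm.continuous))
    have hDD : D = shear hb * up c := by
      ext1 x
      change D x = (inc (c (tl x)) + x 0 • e0) +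
        ((D (inc (c.symm (tl (inc (c (tl x)) + x 0 • e0))))) 0) • e0
      rw [tl_add, tl_inc, c.symm_apply_apply, hc]
      have h1 := split (D (inc (tl x)))
      have h2 : D x = D (inc (tl x)) + x 0 • e0 := by
        rw [← hDs, split]
      rw [h2]
      nth_rewrite 1 [← h1]
      abel
    have hDm : D ∈ Cl (n + 1) := by
      rw [hDD]
      exact Cl_mul (shear_mem hb) (up_mem hcl)
    have hBB : B = M₂.symm.toHomeomorph * D * M₁.symm.toHomeomorph := by
      ext1 x
      change B x = M₂.symm (D (M₁.symm x))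
      rw [hDa, M₁.apply_symm_apply, M₂.symm_apply_apply]
    rw [hBB]
    exact Cl_mul (Cl_mul (lin_mem _) hDm) (lin_mem _)

end

end Pool.Agent.J6H3.PL
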